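import Mathlib

set_option autoImplicit false

namespace Pool.Agent.Results.MP_fa7ade_co.SixVertices

/-- `c` lists the vertices of a directed Hamiltonian cycle `c 0 → c 1 → ⋯ → c (n-1) → c 0` of the
digraph with arc relation `D`. -/
def IsHamCycle {n : ℕ} [NeZero n] (D : Fin n → Fin n → Prop) (c : Fin n → Fin n) : Prop :=
  Function.Bijective c ∧ ∀ i, D (c i) (c (i + 1))

def mask : Fin 6 → ℕ := ![42, 13, 56, 19, 37, 22]

/-- arcs: 0→1,3,5; 1→0,2,3; 2→3,4,5; 3→0,1,4; 4→0,2,5; 5→1,2,4 -/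
def D0 (u v : Fin 6) : Prop := (mask u).testBit v.val = true

instance : DecidableRel D0 := fun u v => inferInstanceAs (Decidable ((mask u).testBit v.val = true))

def s : Fin 4 → Fin 6 → Fin 6 := ![![3, 2, 5, 1, 0, 4], ![3, 0, 5, 4, 2, 1], ![5, 2, 3, 4, 0, 1], ![5, 0, 3, 1, 2, 4]]

set_option synthInstance.maxSize 4000 in
theorem enum : ∀ a b : Fin 6, D0 a b → ∀ c, D0 b c → a ≠ c → ∀ d, D0 c d → a ≠ d → b ≠ d →
    ∀ e, D0 d e → a ≠ e → b ≠ e → c ≠ e → ∀ f, D0 e f → a ≠ f → b ≠ f → c ≠ f → d ≠ f → D0 f a →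
    ∃ k, s k a = b ∧ s k b = c ∧ s k c = d ∧ s k d = e ∧ s k e = f ∧ s k f = a := by
  decide +kernel

theorem meet : ∀ k l, ∃ v, s k v = s l v := by decide +kernel

theorem succ_of (c : Fin 6 → Fin 6) (h : IsHamCycle D0 c) : ∃ k, ∀ i, s k (c i) = c (i + 1) := by
  have ne : ∀ i j : Fin 6, i ≠ j → c i ≠ c j := fun i j hij e => hij (h.1.1 e)
  obtain ⟨k, h0, h1, h2, h3, h4, h5⟩ := enum (c 0) (c 1) (h.2 0) (c 2) (h.2 1) (ne _ _ (by decide))
    (c 3) (h.2 2) (ne _ _ (by decide)) (ne _ _ (by decide))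
    (c 4) (h.2 3) (ne _ _ (by decide)) (ne _ _ (by decide)) (ne _ _ (by decide))
    (c 5) (h.2 4) (ne _ _ (by decide)) (ne _ _ (by decide)) (ne _ _ (by decide)) (ne _ _ (by decide))
    (h.2 5)
  refine ⟨k, fun i => ?_⟩
  fin_cases i
  exacts [h0, h1, h2, h3, h4, h5]

theorem result :
    ∃ D : Fin 6 → Fin 6 → Prop, (∀ v, ¬ D v v) ∧
      (∀ v, (6 : ℝ) / 2 ≤ ({w | D v w}.ncard : ℝ) ∧ (6 : ℝ) / 2 ≤ ({w | D w v}.ncard : ℝ)) ∧
      ∀ c c' : Fin 6 → Fin 6, IsHamCycle D c → IsHamCycle D c' →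
        ∃ i j, c i = c' j ∧ c (i + 1) = c' (j + 1) := by
  refine ⟨D0, by decide +kernel, fun v => ?_, fun c c' h h' => ?_⟩
  · have h1 : ∀ v, (Finset.univ.filter fun w => D0 v w).card = 3 := by decide +kernel
    have h2 : ∀ v, (Finset.univ.filter fun w => D0 w v).card = 3 := by decide +kernel
    have e1 : {w | D0 v w} = ↑(Finset.univ.filter fun w => D0 v w) := by ext; simp
    have e2 : {w | D0 w v} = ↑(Finset.univ.filter fun w => D0 w v) := by ext; simp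
    rw [e1, e2, Set.ncard_coe_finset, Set.ncard_coe_finset, h1, h2]
    norm_num
  · obtain ⟨k, hk⟩ := succ_of c h
    obtain ⟨l, hl⟩ := succ_of c' h'
    obtain ⟨v, hv⟩ := meet k l
    obtain ⟨i, hi⟩ := h.1.2 v
    obtain ⟨j, hj⟩ := h'.1.2 v
    exact ⟨i, j, hi.trans hj.symm, by rw [← hk, ← hl, hi, hj, hv]⟩

end Pool.Agent.Results.MP_fa7ade_co.SixVertices
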